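import Mathlib
import Pool.Agent.Results.MP_a3a416_nt.BalancedRegularSums
import Pool.Agent.R361.RegCount

/-!
# At least `0.57 K ^ (3/4)` regular indices up to `K`, for every prime and every `K`

Call `i`, `1 ≤ i ≤ (p - 3) / 2`, a regular index of the prime `p` if `p` does not divide the
numerator of `B_{2i}`; the prime `p` is regular if all these indices are. For every prime `p` and every
`K ≤ (p - 3) / 2` the number `s` of the regular indices `i ≤ K` satisfies `K ^ 3 ≤ 9 s ^ 4`, that is
`s ≥ (K ^ 3 / 9) ^ (1/4) > 0.57 K ^ (3/4)`.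

The number of representations of every `N ≤ K` as a sum of two regular indices is at least about
`√(N / 3)` (result `BalancedRegularSums`, case `V = 0`), and the pairs of regular indices
`i, j ≤ K` are counted once for all `N ≤ K` together.
-/

set_option autoImplicit false

namespace Pool.Agent.Results.MP_a3a416_nt.RegularIndexCount

open Finset

/-- Let `p` be a prime and `2 K + 3 ≤ p`. The number `s` of the `m`, `1 ≤ m ≤ K`, such that `p` does
not divide the numerator of the Bernoulli number `B_{2m}` satisfies `K ^ 3 ≤ 9 s ^ 4`. -/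
theorem result (p : ℕ) (hp : p.Prime) (K : ℕ) (hK : 2 * K + 3 ≤ p) :
    K ^ 3 ≤ 9 * ((Finset.Icc 1 K).filter
      (fun m : ℕ => ¬ ((p : ℤ) ∣ (bernoulli (2 * m)).num))).card ^ 4 := by
  classical
  set R := (Finset.Icc 1 K).filter (fun m : ℕ => ¬ ((p : ℤ) ∣ (bernoulli (2 * m)).num)) with hR
  let T : ℕ → Finset ℕ := fun N => (Finset.Ioo 0 (N - 0)).filter (fun i : ℕ =>
      ¬ ((p : ℤ) ∣ (bernoulli (2 * i)).num) ∧ ¬ ((p : ℤ) ∣ (bernoulli (2 * (N - i))).num))
  refine Pool.Agent.R361.count K R.card (fun N => (T N).card) ?_ ?_ ?_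
  · intro N h2 hNK
    have h := Pool.Agent.Results.MP_a3a416_nt.BalancedRegularSums.result p hp N h2 (by omega) 0
      (by omega) _ rfl
    have e : 2 * (N - 0) = 2 * N := by simp
    rw [e] at h
    refine h.trans (le_of_eq ?_)
    rw [Nat.mul_zero, zero_add]
  · rw [← Finset.card_sigma, sq, ← Finset.card_product]
    refine Finset.card_le_card_of_injOn (fun x => (x.2, x.1 - x.2)) ?_ ?_
    · rintro ⟨N, i⟩ h
      rw [Finset.mem_coe, Finset.mem_sigma, Finset.mem_Icc, Finset.mem_filter, Finset.mem_Ioo] at h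
      obtain ⟨⟨h1, h2⟩, ⟨h3, h4⟩, h5, h6⟩ := h
      simp only [Nat.sub_zero] at h1 h2 h3 h4 h5 h6
      have e1 : i ∈ R := by
        rw [hR, Finset.mem_filter, Finset.mem_Icc]
        exact ⟨⟨by omega, by omega⟩, h5⟩
      have e2 : N - i ∈ R := by
        rw [hR, Finset.mem_filter, Finset.mem_Icc]
        exact ⟨⟨by omega, by omega⟩, h6⟩
      exact Finset.mem_coe.2 (Finset.mem_product.2 ⟨e1, e2⟩)
    · rintro ⟨N, i⟩ h ⟨N', i'⟩ h' heq
      rw [Finset.mem_coe, Finset.mem_sigma, Finset.mem_Icc, Finset.mem_filter, Finset.mem_Ioo] at h h'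
      obtain ⟨-, ⟨h3, h4⟩, -⟩ := h
      obtain ⟨-, ⟨h3', h4'⟩, -⟩ := h'
      simp only [Prod.mk.injEq, Nat.sub_zero] at heq h3 h4 h3' h4'
      obtain ⟨h5, h6⟩ := heq
      subst h5
      have : N = N' := by omega
      subst this
      rfl
  · intro h1
    refine Finset.card_pos.2 ⟨1, ?_⟩
    rw [hR, Finset.mem_filter, Finset.mem_Icc]
    refine ⟨⟨le_rfl, h1⟩, ?_⟩
    have h2 : bernoulli (2 * 1) = 6⁻¹ := bernoulli_two
    rw [h2]
    have h3 : ((6 : ℚ)⁻¹).num = 1 := by norm_num
    rw [h3]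
    intro h
    have := Int.le_of_dvd (by norm_num) h
    have := hp.two_le
    omega

end Pool.Agent.Results.MP_a3a416_nt.RegularIndexCount
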