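import Mathlib
import Pool.Agent.Results.MP_a3a416_nt.BalancedRegularSums
import Pool.Agent.Results.MP_a3a416_nt.RegularIndexCount

/-!
# The number of representations as a sum of `h` regular indices, for every prime

Call `i`, `1 ≤ i ≤ (p - 3) / 2`, a regular index of the prime `p` if `p` does not divide the
numerator of `B_{2i}`. For every `h ≥ 2` there is a constant `c > 0` such that for EVERY prime `p` every
`N`, `h ≤ N ≤ (p - 3) / 2`, is a sum of `h` regular indices (all of them positive) in at least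
`c N ^ ((3 h - 4) / 4)` ways: `c N ^ (1/2)` for `h = 2`, `c N ^ (5/4)` for `h = 3`, `c N ^ 2` for `h = 4`.
-/

set_option autoImplicit false

namespace Pool.Agent.Results.MP_a3a416_nt.ManyRepresentations

open Finset

/-- representations of `N` as an ordered sum of `h` positive regular indices of `p` -/
def reps (p h N : ℕ) : Finset (Fin h → ℕ) :=
  (Finset.Nat.antidiagonalTuple h N).filter
    (fun x => ∀ i, 0 < x i ∧ ¬ ((p : ℤ) ∣ (bernoulli (2 * x i)).num))

/-- the regular indices up to `M` -/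
def regs (p M : ℕ) : Finset ℕ :=
  (Finset.Icc 1 M).filter (fun m : ℕ => ¬ ((p : ℤ) ∣ (bernoulli (2 * m)).num))

lemma one_reg (p : ℕ) (hp : p.Prime) : ¬ ((p : ℤ) ∣ (bernoulli (2 * 1)).num) := by
  have h2 : bernoulli (2 * 1) = 6⁻¹ := bernoulli_two
  rw [h2]
  have h3 : ((6 : ℚ)⁻¹).num = 1 := by norm_num
  rw [h3]
  intro h
  have := Int.le_of_dvd (by norm_num) h
  have := hp.two_le
  omega

lemma reps_succ (p h N M : ℕ) (hM : M ≤ N) :
    ∑ m ∈ regs p M, (reps p h (N - m)).card ≤ (reps p (h + 1) N).card := by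
  classical
  rw [← card_sigma]
  refine card_le_card_of_injOn (fun x => Fin.cons x.1 x.2) ?_ ?_
  · rintro ⟨m, x⟩ hx
    rw [mem_coe, mem_sigma] at hx
    obtain ⟨h1, h2⟩ := hx
    simp only at h1 h2
    unfold regs at h1
    unfold reps at h2
    rw [mem_filter, mem_Icc] at h1
    rw [mem_filter, Finset.Nat.mem_antidiagonalTuple] at h2
    rw [mem_coe]
    unfold reps
    rw [mem_filter, Finset.Nat.mem_antidiagonalTuple]
    refine ⟨?_, ?_⟩
    · simp only
      rw [Fin.sum_univ_succ]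
      simp only [Fin.cons_zero, Fin.cons_succ]
      omega
    · intro i
      refine Fin.cases ?_ (fun j => ?_) i
      · simp only [Fin.cons_zero]
        exact ⟨by omega, h1.2⟩
      · simp only [Fin.cons_succ]
        exact h2.2 j
  · rintro ⟨m, x⟩ _ ⟨m', x'⟩ _ he
    simp only at he
    obtain ⟨e1, e2⟩ := Fin.cons_inj.1 he
    subst e1
    subst e2
    rfl

lemma reps_ones (p h : ℕ) (hp : p.Prime) : 1 ≤ (reps p h h).card := by
  refine card_pos.2 ⟨fun _ => 1, ?_⟩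
  unfold reps
  rw [mem_filter, Finset.Nat.mem_antidiagonalTuple]
  refine ⟨by simp, fun i => ⟨by norm_num, one_reg p hp⟩⟩

lemma base (p N : ℕ) (hp : p.Prime) (h2 : 2 ≤ N) (hN : 2 * N + 3 ≤ p) :
    N ^ 2 ≤ 36 * (reps p 2 N).card ^ 4 := by
  classical
  have h := Pool.Agent.Results.MP_a3a416_nt.BalancedRegularSums.result p hp N h2 hN 0
      (by omega) _ rfl
  set r := ((Finset.Ioo 0 (N - 0)).filter (fun i : ℕ => ¬ ((p : ℤ) ∣ (bernoulli (2 * i)).num) ∧
      ¬ ((p : ℤ) ∣ (bernoulli (2 * (N - i))).num))).card with hr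
  have hle : r ≤ (reps p 2 N).card := by
    rw [hr]
    refine card_le_card_of_injOn (fun i => ![i, N - i]) ?_ ?_
    · intro i hi
      rw [mem_coe, mem_filter, mem_Ioo, Nat.sub_zero] at hi
      rw [mem_coe]
      unfold reps
      rw [mem_filter, Finset.Nat.mem_antidiagonalTuple]
      refine ⟨?_, ?_⟩
      · simp only [Fin.sum_univ_two, Matrix.cons_val_zero, Matrix.cons_val_one]
        omega
      · intro j
        fin_cases j
        · exact ⟨hi.1.1, hi.2.1⟩
        · exact ⟨Nat.sub_pos_of_lt hi.1.2, hi.2.2⟩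
    · intro i _ j _ hij
      have := congrFun hij 0
      simpa using this
  have h0 : 1 ≤ r := by
    by_contra hcon
    have : r = 0 := by omega
    rw [this] at h
    omega
  have h1 : N ≤ 6 * r ^ 2 := by
    rw [Nat.sub_zero] at h
    nlinarith
  calc N ^ 2 ≤ (6 * r ^ 2) ^ 2 := Nat.pow_le_pow_left h1 2
    _ = 36 * r ^ 4 := by ring
    _ ≤ 36 * (reps p 2 N).card ^ 4 := by gcongr

lemma step (h C : ℕ) (hh : 2 ≤ h) (p : ℕ) (hp : p.Prime)
    (hC : ∀ M, h ≤ M → 2 * M + 3 ≤ p → M ^ (3 * h - 4) ≤ C * (reps p h M).card ^ 4)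
    (N : ℕ) (hhN : h + 1 ≤ N) (hN : 2 * N + 3 ≤ p) :
    N ^ (3 * (h + 1) - 4) ≤ ((h + 1) ^ (3 * h - 1) + (h + 3) ^ 3 * 9 * 2 ^ (3 * h - 4) * C) *
      (reps p (h + 1) N).card ^ 4 := by
  classical
  have e : 3 * (h + 1) - 4 = 3 + (3 * h - 4) := by omega
  have e' : 3 * (h + 1) - 4 = 3 * h - 1 := by omega
  rcases Nat.eq_or_lt_of_le hhN with hNh | hNh
  · rw [e', ← hNh]
    have h1 := reps_ones p (h + 1) hp
    have h2 : 1 ≤ (reps p (h + 1) (h + 1)).card ^ 4 := Nat.one_le_pow _ _ h1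
    calc (h + 1) ^ (3 * h - 1) = (h + 1) ^ (3 * h - 1) * 1 := (mul_one _).symm
      _ ≤ _ := Nat.mul_le_mul (Nat.le_add_right _ _) h2
  set m := (N - h) / 2 with hm
  have hm1 : 1 ≤ m := by omega
  set B := regs p m with hB
  have hne : B.Nonempty := ⟨1, by
    rw [hB]
    unfold regs
    rw [mem_filter, mem_Icc]
    exact ⟨⟨le_rfl, hm1⟩, one_reg p hp⟩⟩
  obtain ⟨m0, hm0, hmin⟩ := exists_min_image B (fun m => (reps p h (N - m)).card) hne
  set τ := (reps p h (N - m0)).card with hτ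
  have h1 : B.card * τ ≤ (reps p (h + 1) N).card := by
    refine le_trans ?_ (reps_succ p h N m (by omega))
    rw [← smul_eq_mul, ← sum_const]
    exact sum_le_sum fun m hm => hmin m hm
  have hm0' : m0 ≤ m := by
    have : m0 ∈ regs p m := hm0
    unfold regs at this
    rw [mem_filter, mem_Icc] at this
    omega
  have h2 := hC (N - m0) (by omega) (by omega)
  have h3 : N ^ (3 * h - 4) ≤ 2 ^ (3 * h - 4) * (C * τ ^ 4) := by
    calc N ^ (3 * h - 4) ≤ (2 * (N - m0)) ^ (3 * h - 4) := Nat.pow_le_pow_left (by omega) _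
      _ = 2 ^ (3 * h - 4) * (N - m0) ^ (3 * h - 4) := mul_pow _ _ _
      _ ≤ 2 ^ (3 * h - 4) * (C * τ ^ 4) := Nat.mul_le_mul_left _ h2
  have h4 : N ^ 3 ≤ (h + 3) ^ 3 * 9 * B.card ^ 4 := by
    have h5 : m ^ 3 ≤ 9 * B.card ^ 4 :=
      Pool.Agent.Results.MP_a3a416_nt.RegularIndexCount.result p hp m (by omega)
    have h6 : N ≤ (h + 3) * m := by
      have : N ≤ 2 * m + (h + 1) := by omega
      nlinarith
    calc N ^ 3 ≤ ((h + 3) * m) ^ 3 := Nat.pow_le_pow_left h6 3
      _ = (h + 3) ^ 3 * m ^ 3 := by ring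
      _ ≤ (h + 3) ^ 3 * (9 * B.card ^ 4) := Nat.mul_le_mul_left _ h5
      _ = _ := by ring
  rw [e, pow_add]
  calc N ^ 3 * N ^ (3 * h - 4) ≤ ((h + 3) ^ 3 * 9 * B.card ^ 4) * (2 ^ (3 * h - 4) * (C * τ ^ 4)) :=
        Nat.mul_le_mul h4 h3
    _ = ((h + 3) ^ 3 * 9 * 2 ^ (3 * h - 4) * C) * (B.card * τ) ^ 4 := by ring
    _ ≤ ((h + 3) ^ 3 * 9 * 2 ^ (3 * h - 4) * C) * (reps p (h + 1) N).card ^ 4 :=
        Nat.mul_le_mul_left _ (Nat.pow_le_pow_left h1 4)
    _ ≤ _ := Nat.mul_le_mul_right _ (Nat.le_add_left _ _)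

/-- For every `h ≥ 2` there is `C` such that for every prime `p` and every `N` with `h ≤ N` and
`2 N + 3 ≤ p` the number `t` of the `h`-tuples of positive integers `x i` with sum `N` such that `p`
divides none of the numerators of the Bernoulli numbers `B_{2 (x i)}` satisfies
`N ^ (3 h - 4) ≤ C t ^ 4`. -/
theorem result : ∀ h : ℕ, 2 ≤ h → ∃ C : ℕ, ∀ p : ℕ, p.Prime → ∀ N : ℕ, h ≤ N → 2 * N + 3 ≤ p →
    N ^ (3 * h - 4) ≤ C * ((Finset.Nat.antidiagonalTuple h N).filter
        (fun x : Fin h → ℕ => ∀ i, 0 < x i ∧ ¬ ((p : ℤ) ∣ (bernoulli (2 * x i)).num))).card ^ 4 := by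
  classical
  intro h hh
  have key : ∃ C : ℕ, ∀ p : ℕ, p.Prime → ∀ N : ℕ, h ≤ N → 2 * N + 3 ≤ p →
      N ^ (3 * h - 4) ≤ C * (reps p h N).card ^ 4 := by
    induction h, hh using Nat.le_induction with
    | base => exact ⟨36, fun p hp N h2 hN => base p N hp h2 hN⟩
    | succ h hh ih =>
      obtain ⟨C, hC⟩ := ih
      exact ⟨_, fun p hp N hhN hN => step h C hh p hp (fun M h1 h2 => hC p hp M h1 h2) N hhN hN⟩
  obtain ⟨C, hC⟩ := key
  refine ⟨C, fun p hp N hhN hN => ?_⟩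
  have e := hC p hp N hhN hN
  refine e.trans (le_of_eq ?_)
  unfold reps
  congr

end Pool.Agent.Results.MP_a3a416_nt.ManyRepresentations
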