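import Mathlib
import Pool.Agent.R361.QF.Four

/-!
# The indices `(p + 3) / 4` and `(3 p + 1) / 4` are regular for almost all primes `p ≡ 5 (mod 8)`

Let `p ≡ 5 (mod 8)` be prime and let `χ` be a quartic character modulo `p`, with values in `ℤ[i]`;
it is odd. Both `B_{(p+3)/4}` and `B_{(3p+1)/4}` are, modulo `p` and up to units, values of the half
sum `S = ∑_{a < p/2} χ(a)` under the two homomorphisms `ℤ[i] → 𝔽_p`, so that `p` divides the norm
of `S` if one of the numerators is divisible by `p`. Since `S ≠ 0` and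
`π² N(S) / (4 p) = |∑_{n odd} χ(n) / n|²`, the value of the last sum then lies in the discrete set
`{(π² / 4) m : m ≥ 1}`.

* The values `χ(q)` at odd primes `q` are given by the quartic residue symbol of the Jacobi sum
  `J(χ, χ)`, an element of `ℤ[i]` of norm `p` (`Rec4.lean`, via Gauss sums), so the number of bad
  primes is at most the number of elements of `ℤ[i]` of norm `≤ x`, free of small split prime
  factors (Selberg's sieve, `QF/Bound.lean`), whose symbols modulo the small primes are special.
* The large sieve replaces the infinite sum by a sum of length `x^{1/40}` outside `O(x^{3/4})`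
  primes (`AC/Tail.lean`, `AC/Approx.lean`).
* The values at the small primes are independent (Chinese remainder theorem), and a
  Littlewood-Offord argument (`AC/Anti.lean`, `AC/Main.lean`) shows that the product
  `∏_q |1 - χ(q)/q|^{-2}` is rarely near a fixed value.
-/

set_option autoImplicit false

namespace Pool.Agent.Results.MP_a3a416_nt.QuarticIndices

open Filter

/-- For all but `o(x / log x)` of the primes `p ≤ x` with `p ≡ 5 (mod 8)`, the prime `p` divides
neither the numerator of the Bernoulli number `B_{(p+3)/4}` nor that of `B_{(3p+1)/4}`. -/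
theorem result (ε : ℝ) (hε : 0 < ε) :
    ∀ᶠ x : ℕ in atTop,
      (Nat.card {p : ℕ | p ≤ x ∧ p.Prime ∧ p % 8 = 5 ∧
        ((p : ℤ) ∣ (bernoulli ((p + 3) / 4)).num ∨ (p : ℤ) ∣ (bernoulli ((3 * p + 1) / 4)).num)} : ℝ)
        ≤ ε * (x / Real.log x) := by
  filter_upwards [Pool.Agent.R361.QF.four_count ε hε] with x hx
  have h : {p : ℕ | p ≤ x ∧ p.Prime ∧ p % 8 = 5 ∧
        ((p : ℤ) ∣ (bernoulli ((p + 3) / 4)).num ∨ (p : ℤ) ∣ (bernoulli ((3 * p + 1) / 4)).num)} =
      {p : ℕ | p ≤ x ∧ p ∈ Pool.Agent.R361.QF.P4 ∧ Pool.Agent.R361.QF.B4 p} := by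
    ext p
    constructor
    · rintro ⟨h1, h2, h3, h4⟩
      exact ⟨h1, ⟨h2, h3⟩, h4⟩
    · rintro ⟨h1, ⟨h2, h3⟩, h4⟩
      exact ⟨h1, h2, h3, h4⟩
  rw [h]
  exact hx

end Pool.Agent.Results.MP_a3a416_nt.QuarticIndices
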