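import Mathlib
import Pool.Agent.R361.SX.Six

/-!
# The indices `(p + 5) / 6` and `(5 p + 1) / 6` are regular for almost all primes `p ≡ 7 (mod 12)`

Let `p ≡ 7 (mod 12)` be prime and let `χ` be a character of order six modulo `p`, with values in
`ℤ[ω]`; it is odd. Both `B_{(p+5)/6}` and `B_{(5p+1)/6}` are, modulo `p` and up to units, values of
the half sum `S = ∑_{a < p/2} χ(a)` under the two homomorphisms `ℤ[ω] → 𝔽_p`, so that `p` divides
the norm of `S` if one of the numerators is divisible by `p`. Since `S ≠ 0` (`L(1, χ) ≠ 0`) and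
`π² N(S) / (4 p) = |∑_{n odd} χ(n) / n|²`, the value of `|∑_{(n, 6) = 1} χ(n) / n|²` then lies in
the discrete set of the `|1 - u/3|² (π² / 4) m`, `u⁶ = 1`, `m ≥ 1`. The values of `χ` at the primes
`q ∤ 6` are given by the cubic and the quadratic symbols modulo `q` of a Jacobi sum, an element of
`ℤ[ω]` of norm `p`; the rest is as for the quartic characters (`QuarticIndices`): Selberg's sieve in
`ℤ[ω]`, the large sieve and a Littlewood-Offord argument.
-/

set_option autoImplicit false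

namespace Pool.Agent.Results.MP_a3a416_nt.SexticIndices

open Filter

/-- For all but `o(x / log x)` of the primes `p ≤ x` with `p ≡ 7 (mod 12)`, the prime `p` divides
neither the numerator of the Bernoulli number `B_{(p+5)/6}` nor that of `B_{(5p+1)/6}`. -/
theorem result (ε : ℝ) (hε : 0 < ε) :
    ∀ᶠ x : ℕ in atTop,
      (Nat.card {p : ℕ | p ≤ x ∧ p.Prime ∧ p % 12 = 7 ∧
        ((p : ℤ) ∣ (bernoulli ((p + 5) / 6)).num ∨ (p : ℤ) ∣ (bernoulli ((5 * p + 1) / 6)).num)} : ℝ)
        ≤ ε * (x / Real.log x) := by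
  filter_upwards [Pool.Agent.R361.SX.six_count ε hε] with x hx
  have h : {p : ℕ | p ≤ x ∧ p.Prime ∧ p % 12 = 7 ∧
        ((p : ℤ) ∣ (bernoulli ((p + 5) / 6)).num ∨ (p : ℤ) ∣ (bernoulli ((5 * p + 1) / 6)).num)} =
      {p : ℕ | p ≤ x ∧ p ∈ Pool.Agent.R361.SX.P6 ∧ Pool.Agent.R361.SX.B6 p} := by
    ext p
    constructor
    · rintro ⟨h1, h2, h3, h4⟩
      exact ⟨h1, ⟨h2, h3⟩, h4⟩
    · rintro ⟨h1, ⟨h2, h3⟩, h4⟩
      exact ⟨h1, h2, h3, h4⟩
  rw [h]
  exact hx

end Pool.Agent.Results.MP_a3a416_nt.SexticIndices
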